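import Pool.Agent.H48.CN.Main

/-! Common lemmas for the base points of the twist theorems (MP_157626_nt). -/

namespace H4.Tw

open WeierstrassCurve WeierstrassCurve.Affine H48.CN

variable {A B C : ℚ}

/-- Odd multiples have the same descent class. -/
theorem odd_class {e : ℚ} (he : e ^ 3 + A * e ^ 2 + B * e + C = 0)
    (he' : 3 * e ^ 2 + 2 * A * e + B ≠ 0) (P : (Wc A B C).Point) (k : ℕ) :
    IsSquare (dval e ((2 * k + 1) • P) * dval e P) := by
  obtain ⟨s, hs⟩ := dval_mul he (k • P) (k • P)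
  obtain ⟨r, hr⟩ := dval_mul he P (k • P + k • P)
  have hk : (2 * k + 1) • P = P + (k • P + k • P) := by
    have h1 : 2 * k + 1 = 1 + (k + k) := by omega
    rw [h1, add_nsmul, add_nsmul, one_nsmul]
  have h2 := dval_ne_zero he' (k • P)
  have h3 := dval_ne_zero he' (k • P + k • P)
  rw [hk]
  have hs0 : s ≠ 0 := by
    rintro rfl
    rw [mul_zero] at hs
    exact (mul_ne_zero h3 (mul_ne_zero h2 h2)) hs
  refine ⟨r * dval e (k • P) / s, ?_⟩
  field_simp
  linear_combination (dval e (k • P)) ^ 2 * hr - dval e (P + (k • P + k • P)) * dval e P * hs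

/-- No odd multiple of a point of infinite order is a two-torsion point. -/
theorem odd_ne {e : ℚ} (he : e ^ 3 + A * e ^ 2 + B * e + C = 0) (P : (Wc A B C).Point)
    (hinf : ∀ n : ℕ, 0 < n → n • P ≠ 0) (k : ℕ) {x y : ℚ} {h : (Wc A B C).Nonsingular x y}
    (hP : (2 * k + 1) • P = Point.some x y h) : x ≠ e := by
  rintro rfl
  have hy : y = 0 := by
    have : y ^ 2 = 0 := by rw [eqn_iff.1 h.1, he]
    exact pow_eq_zero_iff two_ne_zero |>.1 this
  apply hinf (2 * (2 * k + 1)) (by omega)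
  rw [mul_nsmul', hP, two_nsmul]
  exact Point.add_of_Y_eq rfl (by rw [negY_eq, hy, neg_zero])

/-- The conclusion of the descent for an odd multiple. -/
theorem odd_sq {e : ℚ} (he : e ^ 3 + A * e ^ 2 + B * e + C = 0)
    (he' : 3 * e ^ 2 + 2 * A * e + B ≠ 0) {x0 y0 : ℚ} (h0 : (Wc A B C).Nonsingular x0 y0)
    (hx0 : x0 ≠ e)
    (hinf : ∀ n : ℕ, 0 < n → n • (Point.some x0 y0 h0 : (Wc A B C).Point) ≠ 0)
    (k : ℕ) {x y : ℚ} {h : (Wc A B C).Nonsingular x y}
    (hP : (2 * k + 1) • (Point.some x0 y0 h0 : (Wc A B C).Point) = Point.some x y h) :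
    ∃ r : ℚ, r ≠ 0 ∧ (x - e) * (x0 - e) = r ^ 2 := by
  have hx := odd_ne he _ hinf k hP
  obtain ⟨r, hr⟩ := odd_class he he' (Point.some x0 y0 h0 : (Wc A B C).Point) k
  rw [hP, dval_some, dval_some, if_neg hx, if_neg hx0] at hr
  refine ⟨r, ?_, by rw [hr]; ring⟩
  rintro rfl
  rw [mul_zero] at hr
  exact mul_ne_zero (sub_ne_zero.2 hx) (sub_ne_zero.2 hx0) hr

/-- Doubling. -/
theorem double_rel {x y : ℚ} (h : (Wc A B C).Nonsingular x y) (hy : y ≠ 0) {l : ℚ}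
    (hl : l * (2 * y) = 3 * x ^ 2 + 2 * A * x + B) :
    ∃ h' : (Wc A B C).Nonsingular (l ^ 2 - A - 2 * x) (-(y + l * (l ^ 2 - A - 3 * x))),
      (2 : ℕ) • (Point.some x y h : (Wc A B C).Point) = Point.some _ _ h' := by
  have hne : ¬ (x = x ∧ y = -y) := by
    rintro ⟨-, h2⟩
    apply hy; linarith
  obtain ⟨l', x₃, y₃, h₃, hs, -, r2, r3, r4⟩ := add_rel h h hne
  have hll : l' = l := by
    have : l' * (2 * y) = l * (2 * y) := by
      rw [hl]; linear_combination r2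
    exact mul_right_cancel₀ (mul_ne_zero two_ne_zero hy) this
  subst hll
  have e3 : x₃ = l' ^ 2 - A - 2 * x := by rw [r3]; ring
  have e4 : y₃ = -(y + l' * (l' ^ 2 - A - 3 * x)) := by rw [r4, r3]; ring
  subst e3 e4
  exact ⟨h₃, by rw [two_nsmul, hs]⟩

theorem pv_nat_lt {p : ℕ} [hp : Fact p.Prime] {n : ℕ} (h : p ∣ n) : pv p (n : ℚ) < 1 := by
  have h1 := pv_int p (n : ℤ)
  refine lt_of_le_of_ne (by exact_mod_cast h1) ?_
  intro h2
  unfold pv at h2
  rw [Rat.cast_natCast, Padic.norm_natCast_eq_one_iff] at h2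
  exact (Nat.Prime.coprime_iff_not_dvd hp.out).1 h2 h

theorem nat_mem_OO {p : ℕ} [hp : Fact p.Prime] (n : ℕ) : (n : ℚ) ∈ OO p :=
  natCast_mem (OO p) n

/-- Doubling a point which reduces to the singular... to a point with `y = 0` modulo `p`. -/
theorem double_pv {p : ℕ} [hp : Fact p.Prime] (hA : A ∈ OO p) {x y : ℚ}
    (h : (Wc A B C).Nonsingular x y) (hy : y ≠ 0) (hx1 : pv p x < 1) (hy1 : pv p y < 1)
    (hB : pv p B = 1) :
    ∃ (x' y' : ℚ) (h' : (Wc A B C).Nonsingular x' y'),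
      (2 : ℕ) • (Point.some x y h : (Wc A B C).Point) = Point.some x' y' h' ∧ 1 < pv p x' := by
  have hxm : x ∈ OO p := (mem_OO p).2 hx1.le
  obtain ⟨l, hl⟩ : ∃ l : ℚ, l * (2 * y) = 3 * x ^ 2 + 2 * A * x + B :=
    ⟨(3 * x ^ 2 + 2 * A * x + B) / (2 * y), by field_simp⟩
  obtain ⟨h', e⟩ := double_rel h hy hl
  refine ⟨_, _, h', e, ?_⟩
  have h2A : 2 * A ∈ OO p := mul_mem (ofNat_mem_OO p 2) hA
  have h3x : 3 * x ∈ OO p := mul_mem (ofNat_mem_OO p 3) hxm
  have h2x : 2 * x ∈ OO p := mul_mem (ofNat_mem_OO p 2) hxm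
  have hnum : pv p (3 * x ^ 2 + 2 * A * x + B) = 1 := by
    have h1 : 3 * x ^ 2 + 2 * A * x + B = B + x * (3 * x + 2 * A) := by ring
    have h2 : pv p (x * (3 * x + 2 * A)) < 1 := pv_mul_lt p hx1 (add_mem h3x h2A)
    rw [h1, pv_add_eq, hB]
    rw [hB]; exact h2
  have hden : pv p (2 * y) < 1 := by
    rw [mul_comm]; exact pv_mul_lt p hy1 (ofNat_mem_OO p 2)
  have hl1 : 1 < pv p l := by
    have h1 : pv p l * pv p (2 * y) = 1 := by rw [← pv_mul, hl, hnum]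
    by_contra hcon
    push Not at hcon
    have h2 := pv_nonneg p l
    have h3 := pv_nonneg p (2 * y)
    nlinarith
  have hl2 : 1 < pv p (l ^ 2) := by
    rw [pv_pow]; exact one_lt_pow₀ hl1 two_ne_zero
  have h3 : l ^ 2 - A - 2 * x = l ^ 2 + (-(A + 2 * x)) := by ring
  have h4 : pv p (-(A + 2 * x)) ≤ 1 := (mem_OO p).1 (neg_mem (add_mem hA h2x))
  rw [h3, pv_add_eq]
  · exact hl2
  · exact lt_of_le_of_lt h4 hl2

end H4.Tw
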