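import Pool.Agent.helper4.Tw.Common
import Pool.Agent.helper45.Tw.D

/-! Module L: the base point for the rank 3 theorem (MP_157626_nt). -/

namespace H4.Tw

open WeierstrassCurve WeierstrassCurve.Affine H48.CN

/-- `α` for the rank 3 theorem. -/
def a3 (a c : ℚ) : ℚ := a ^ 3 * c ^ 3
/-- `β` for the rank 3 theorem. -/
def b3 (a c : ℚ) : ℚ := a * (a + c) ^ 2 * c * (a ^ 2 + c ^ 2)

/-- A prime `p ≥ 5` dividing `a^2 - a c + c^2`. -/
theorem exists_prime (a c : ℕ) (hc : 0 < c) (hco : a.Coprime c) (hne : a ≠ c)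
    (heven : Even (a + c)) : ∃ (p q : ℕ), p.Prime ∧ 5 ≤ p ∧ p ∣ q ∧ q + a * c = a ^ 2 + c ^ 2 := by
  have hao : Odd a := by
    by_contra h
    rw [Nat.not_odd_iff_even] at h
    have hce : Even c := (Nat.even_add.1 heven).1 h
    have := Nat.dvd_gcd h.two_dvd hce.two_dvd
    rw [hco.gcd_eq_one] at this
    omega
  have hcod : Odd c := by
    by_contra h
    rw [Nat.not_odd_iff_even] at h
    have hce : Even a := (Nat.even_add.1 heven).2 h
    exact (Nat.not_even_iff_odd.2 hao) hce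
  obtain ⟨q, hq⟩ : ∃ q : ℕ, q + a * c = a ^ 2 + c ^ 2 := by
    refine ⟨a ^ 2 + c ^ 2 - a * c, ?_⟩
    have : a * c ≤ a ^ 2 + c ^ 2 := by nlinarith [sq_nonneg ((a : ℤ) - c)]
    omega
  have hqodd : ¬ 2 ∣ q := by
    intro h
    have h1 : Even (q + a * c) := by
      rw [hq]
      exact (hao.pow).add_odd (hcod.pow)
    have h2 : Odd (a * c) := hao.mul hcod
    have h3 : Odd (q + a * c) := (even_iff_two_dvd.2 h).add_odd h2
    exact (Nat.not_even_iff_odd.2 h3) h1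
  have hq7 : 7 ≤ q := by
    have h2 : (q : ℤ) = (a - c) ^ 2 + a * c := by
      have : (q : ℤ) + a * c = a ^ 2 + c ^ 2 := by exact_mod_cast hq
      linear_combination this
    obtain ⟨i, hi⟩ := hao
    obtain ⟨j, hj⟩ := hcod
    have hij : (i : ℤ) ≠ j := by
      intro h; apply hne; rw [hi, hj]; have : i = j := by exact_mod_cast h
      rw [this]
    have h3 : (a : ℤ) = 2 * i + 1 := by exact_mod_cast hi
    have h4 : (c : ℤ) = 2 * j + 1 := by exact_mod_cast hj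
    have h5 : (1 : ℤ) ≤ (i - j) ^ 2 := by
      have : (0 : ℤ) < (i - j) ^ 2 := by
        have := sub_ne_zero.2 hij
        positivity
      omega
    have h6 : (0 : ℤ) ≤ i := by positivity
    have h7 : (0 : ℤ) ≤ j := by positivity
    have h8 : (7 : ℤ) ≤ q := by
      rw [h2, h3, h4]
      have h9 : (1 : ℤ) ≤ i + j := by
        rcases h6.lt_or_eq with h | h
        · omega
        · rcases h7.lt_or_eq with h' | h'
          · omega
          · exact absurd (h.symm.trans h') hij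
      nlinarith [mul_nonneg h6 h7]
    exact_mod_cast h8
  have hac3 : 3 ∣ q → ¬ 9 ∣ q := by
    intro h3 h9
    obtain ⟨m, hm⟩ := h9
    -- `q + 3ac = (a+c)^2`
    have h1 : q + 3 * (a * c) = (a + c) ^ 2 := by nlinarith
    have h4 : 3 ∣ (a + c) ^ 2 := by
      rw [← h1]; exact dvd_add h3 (Dvd.intro _ rfl)
    have h5 : 3 ∣ a + c := Nat.prime_three.dvd_of_dvd_pow h4
    obtain ⟨t, ht⟩ := h5
    rw [ht, hm] at h1
    have h6 : a * c = 3 * (t ^ 2 - m) := by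
      have h7 : 9 * m + 3 * (a * c) = 9 * t ^ 2 := by rw [h1]; ring
      omega
    have h7 : 3 ∣ a * c := ⟨_, h6⟩
    have hd3 : 3 ∣ a ∧ 3 ∣ c := by
      rcases (Nat.Prime.dvd_mul Nat.prime_three).1 h7 with h | h
      · exact ⟨h, (Nat.dvd_add_right h).1 ⟨t, ht⟩⟩
      · exact ⟨(Nat.dvd_add_left h).1 ⟨t, ht⟩, h⟩
    have := Nat.dvd_gcd hd3.1 hd3.2
    rw [hco.gcd_eq_one] at this
    omega
  have key : ∀ m : ℕ, m ≠ 1 → ¬ 2 ∣ m → ¬ 3 ∣ m → ∃ p, p.Prime ∧ 5 ≤ p ∧ p ∣ m := by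
    intro m h1 h2 h3
    refine ⟨m.minFac, Nat.minFac_prime h1, ?_, m.minFac_dvd⟩
    have hp := Nat.minFac_prime h1
    have hd := m.minFac_dvd
    have h4 : m.minFac ≠ 2 := fun h => h2 (h ▸ hd)
    have h5 : m.minFac ≠ 3 := fun h => h3 (h ▸ hd)
    have h6 := hp.two_le
    have h7 : m.minFac ≠ 4 := by
      intro h; rw [h] at hp; revert hp; norm_num
    omega
  by_cases h3 : 3 ∣ q
  · obtain ⟨m, hm⟩ := h3
    have hm3 : ¬ 3 ∣ m := by
      rintro ⟨j, hj⟩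
      exact hac3 ⟨m, hm⟩ ⟨j, by rw [hm, hj]; ring⟩
    have hm2 : ¬ 2 ∣ m := by
      rintro ⟨j, hj⟩
      exact hqodd ⟨3 * j, by rw [hm, hj]; ring⟩
    obtain ⟨p, hp, hp5, hpm⟩ := key m (by rintro rfl; omega) hm2 hm3
    exact ⟨p, q, hp, hp5, hm ▸ (Dvd.dvd.mul_left hpm 3), hq⟩
  · obtain ⟨p, hp, hp5, hpm⟩ := key q (by rintro rfl; omega) hqodd h3
    exact ⟨p, q, hp, hp5, hpm, hq⟩

theorem base3_ns (a c : ℚ) (ha : 0 < a) (hc : 0 < c) :
    (Wc (b3 a c - a3 a c) (-(a3 a c * b3 a c)) 0).Nonsingular (-(a ^ 4 * (a + c) * c))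
      (a ^ 4 * (a + c) * c ^ 2 * (a ^ 2 + a * c + c ^ 2)) := by
  apply nonsing_of
  · unfold a3 b3; ring
  · left
    positivity

/-- The double of the base point. -/
theorem base3_double (a c : ℚ) (ha : 0 < a) (hc : 0 < c) :
    ∃ h' : (Wc (b3 a c - a3 a c) (-(a3 a c * b3 a c)) 0).Nonsingular (((a ^ 3 + c ^ 3) / 2) ^ 2)
      (-((a ^ 3 + c ^ 3) * (a ^ 3 - c ^ 3) * (a + c) * (a ^ 2 + a * c + c ^ 2) / 8)),
      (2 : ℕ) • (Point.some _ _ (base3_ns a c ha hc) :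
        (Wc (b3 a c - a3 a c) (-(a3 a c * b3 a c)) 0).Point) = Point.some _ _ h' := by
  obtain ⟨h', e⟩ := double_rel (base3_ns a c ha hc) (by positivity)
    (l := (a ^ 3 - 2 * a ^ 2 * c - 2 * a * c ^ 2 - c ^ 3) / 2) (by unfold a3 b3; ring)
  have e1 : ((a ^ 3 - 2 * a ^ 2 * c - 2 * a * c ^ 2 - c ^ 3) / 2) ^ 2 - (b3 a c - a3 a c) -
      2 * (-(a ^ 4 * (a + c) * c)) = ((a ^ 3 + c ^ 3) / 2) ^ 2 := by unfold a3 b3; ring
  have e2 : -(a ^ 4 * (a + c) * c ^ 2 * (a ^ 2 + a * c + c ^ 2) +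
      (a ^ 3 - 2 * a ^ 2 * c - 2 * a * c ^ 2 - c ^ 3) / 2 *
      (((a ^ 3 - 2 * a ^ 2 * c - 2 * a * c ^ 2 - c ^ 3) / 2) ^ 2 - (b3 a c - a3 a c) -
      3 * (-(a ^ 4 * (a + c) * c)))) =
      -((a ^ 3 + c ^ 3) * (a ^ 3 - c ^ 3) * (a + c) * (a ^ 2 + a * c + c ^ 2) / 8) := by
    unfold a3 b3; ring
  simp only [e1, e2] at h' e
  exact ⟨h', e⟩

theorem a3_nat (a c : ℕ) : a3 a c = ((a ^ 3 * c ^ 3 : ℕ) : ℚ) := by
  unfold a3; push_cast; ring

theorem b3_nat (a c : ℕ) : b3 a c = ((a * (a + c) ^ 2 * c * (a ^ 2 + c ^ 2) : ℕ) : ℚ) := by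
  unfold b3; push_cast; ring

theorem base3_inf (a c : ℕ) (ha : 0 < a) (hc : 0 < c) (hco : a.Coprime c) (hne : a ≠ c)
    (ha' : 0 < (a : ℚ)) (hc' : 0 < (c : ℚ)) (k : ℕ) (hk : 0 < k) :
    k • (Point.some _ _ (base3_ns (a : ℚ) (c : ℚ) ha' hc') :
        (Wc (b3 a c - a3 a c) (-(a3 a c * b3 a c)) 0).Point) ≠ 0 := by
  intro hk0
  obtain ⟨h2, e2⟩ := base3_double (a : ℚ) (c : ℚ) ha' hc'
  have hk2 : k • (Point.some _ _ h2 : (Wc (b3 a c - a3 a c) (-(a3 a c * b3 a c)) 0).Point) = 0 := by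
    rw [← e2, smul_comm, hk0]; exact nsmul_zero 2
  have hAm : ∀ (p : ℕ) [Fact p.Prime], b3 (a : ℚ) c - a3 a c ∈ OO p := by
    intro p _
    rw [a3_nat, b3_nat]
    exact sub_mem (nat_mem_OO _) (nat_mem_OO _)
  have hBm : ∀ (p : ℕ) [Fact p.Prime], -(a3 (a : ℚ) c * b3 a c) ∈ OO p := by
    intro p _
    rw [a3_nat, b3_nat]
    exact neg_mem (mul_mem (nat_mem_OO _) (nat_mem_OO _))
  by_cases hpar : Even (a + c)
  · obtain ⟨p, q, hp, hp5, hpq, hq⟩ := exists_prime a c hc hco hne hpar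
    have : Fact p.Prime := ⟨hp⟩
    have hpa : ¬ p ∣ a := by
      intro h
      have h1 : p ∣ c ^ 2 := by
        have h2 : p ∣ a ^ 2 + c ^ 2 := by
          rw [← hq]; exact dvd_add hpq (h.mul_right _)
        exact (Nat.dvd_add_right (h.trans (dvd_pow_self a two_ne_zero))).1 h2
      have h3 := Nat.dvd_gcd h (hp.dvd_of_dvd_pow h1)
      rw [hco.gcd_eq_one] at h3
      exact hp.one_lt.ne' (Nat.dvd_one.1 h3)
    have hpc : ¬ p ∣ c := by
      intro h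
      have h1 : p ∣ a ^ 2 := by
        have h2 : p ∣ a ^ 2 + c ^ 2 := by
          rw [← hq]; exact dvd_add hpq (h.mul_left _)
        exact (Nat.dvd_add_left (h.trans (dvd_pow_self c two_ne_zero))).1 h2
      exact hpa (hp.dvd_of_dvd_pow h1)
    have hpac : ¬ p ∣ a * c := fun h => ((Nat.Prime.dvd_mul hp).1 h).elim hpa hpc
    have hps : ¬ p ∣ a + c := by
      intro h
      have h1 : q + 3 * (a * c) = (a + c) ^ 2 := by nlinarith
      have h2 : p ∣ 3 * (a * c) := by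
        have h3 : p ∣ q + 3 * (a * c) := by
          rw [h1]; exact h.trans (dvd_pow_self _ two_ne_zero)
        exact (Nat.dvd_add_right hpq).1 h3
      rcases (Nat.Prime.dvd_mul hp).1 h2 with h3 | h3
      · exact absurd (Nat.le_of_dvd (by norm_num) h3) (by omega)
      · exact hpac h3
    have hpt : ¬ p ∣ a ^ 2 + c ^ 2 := by
      intro h
      rw [← hq] at h
      exact hpac ((Nat.dvd_add_right hpq).1 h)
    have hB1 : pv p (-(a3 (a : ℚ) c * b3 a c)) = 1 := by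
      rw [a3_nat, b3_nat, pv_neg, pv_mul, pv_nat_one, pv_nat_one, mul_one]
      · intro h
        rcases (Nat.Prime.dvd_mul hp).1 h with h | h
        · rcases (Nat.Prime.dvd_mul hp).1 h with h | h
          · rcases (Nat.Prime.dvd_mul hp).1 h with h | h
            · exact hpa h
            · exact hps (hp.dvd_of_dvd_pow h)
          · exact hpc h
        · exact hpt h
      · intro h
        rcases (Nat.Prime.dvd_mul hp).1 h with h | h
        · exact hpa (hp.dvd_of_dvd_pow h)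
        · exact hpc (hp.dvd_of_dvd_pow h)
    have h2p : pv p ((2 : ℕ) : ℚ) = 1 :=
      pv_nat_one (fun h => absurd (Nat.le_of_dvd (by norm_num) h) (by omega))
    have hqr : (q : ℚ) = (a : ℚ) ^ 2 + (c : ℚ) ^ 2 - a * c := by
      have : (q : ℚ) + a * c = a ^ 2 + c ^ 2 := by exact_mod_cast hq
      linear_combination this
    have hs3 : pv p ((a : ℚ) ^ 3 + (c : ℚ) ^ 3) < 1 := by
      have h1 : (a : ℚ) ^ 3 + (c : ℚ) ^ 3 = ((q * (a + c) : ℕ) : ℚ) := by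
        push_cast; rw [hqr]; ring
      rw [h1]; exact pv_nat_lt (hpq.mul_right _)
    have hx1 : pv p (((a : ℚ) ^ 3 + (c : ℚ) ^ 3) / 2) < 1 := by
      have h1 : pv p ((2 : ℕ) : ℚ) * pv p (((a : ℚ) ^ 3 + (c : ℚ) ^ 3) / 2) < 1 := by
        rw [← pv_mul]
        have : ((2 : ℕ) : ℚ) * (((a : ℚ) ^ 3 + (c : ℚ) ^ 3) / 2) = (a : ℚ) ^ 3 + (c : ℚ) ^ 3 := by
          push_cast; ring
        rw [this]; exact hs3
      rwa [h2p, one_mul] at h1
    have hx2 : pv p ((((a : ℚ) ^ 3 + (c : ℚ) ^ 3) / 2) ^ 2) < 1 := by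
      rw [sq]; exact pv_mul_lt p hx1 ((mem_OO p).2 hx1.le)
    have hy2 : pv p (-(((a : ℚ) ^ 3 + c ^ 3) * (a ^ 3 - c ^ 3) * (a + c) *
        (a ^ 2 + a * c + c ^ 2) / 8)) < 1 := by
      rw [pv_neg]
      have h8 : pv p ((2 : ℕ) : ℚ) ^ 3 * pv p (((a : ℚ) ^ 3 + c ^ 3) * (a ^ 3 - c ^ 3) * (a + c) *
        (a ^ 2 + a * c + c ^ 2) / 8) < 1 := by
        rw [← pv_pow, ← pv_mul]
        have : ((2 : ℕ) : ℚ) ^ 3 * (((a : ℚ) ^ 3 + c ^ 3) * (a ^ 3 - c ^ 3) * (a + c) *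
          (a ^ 2 + a * c + c ^ 2) / 8) = ((a : ℚ) ^ 3 + c ^ 3) * ((a ^ 3 - c ^ 3) * (a + c) *
          (a ^ 2 + a * c + c ^ 2)) := by push_cast; ring
        rw [this]
        refine pv_mul_lt p hs3 ?_
        have ma : (a : ℚ) ∈ OO p := nat_mem_OO a
        have mc : (c : ℚ) ∈ OO p := nat_mem_OO c
        exact mul_mem (mul_mem (sub_mem (pow_mem ma 3) (pow_mem mc 3)) (add_mem ma mc))
          (add_mem (add_mem (pow_mem ma 2) (mul_mem ma mc)) (pow_mem mc 2))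
      rwa [h2p, one_pow, one_mul] at h8
    have hy0 : -(((a : ℚ) ^ 3 + c ^ 3) * (a ^ 3 - c ^ 3) * (a + c) *
        (a ^ 2 + a * c + c ^ 2) / 8) ≠ 0 := by
      have h1 : (a : ℚ) ^ 3 - c ^ 3 ≠ 0 := by
        intro h
        have h2 : ((a : ℚ) - c) * (a ^ 2 + a * c + c ^ 2) = 0 := by linear_combination h
        rcases mul_eq_zero.1 h2 with h3 | h3
        · apply hne
          have : (a : ℚ) = c := by linear_combination h3
          exact_mod_cast this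
        · have : 0 < (a : ℚ) ^ 2 + a * c + c ^ 2 := by positivity
          exact this.ne' h3
      have h2 : (a : ℚ) ^ 3 + c ^ 3 ≠ 0 := by positivity
      have h3 : (a : ℚ) + c ≠ 0 := by positivity
      have h4 : (a : ℚ) ^ 2 + a * c + c ^ 2 ≠ 0 := by positivity
      exact neg_ne_zero.2 (div_ne_zero (mul_ne_zero (mul_ne_zero (mul_ne_zero h2 h1) h3) h4)
        (by norm_num))
    obtain ⟨x', y', h', e', hbig⟩ := double_pv (hAm p) h2 hy0 hx2 hy2 hB1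
    refine Pool.Agent.helper45.Tw.inf_of_pv (hAm p) (hBm p) (zero_mem _) h' hbig hk ?_
    rw [← e', smul_comm, hk2]; exact nsmul_zero 2
  · have : Fact (Nat.Prime 2) := ⟨Nat.prime_two⟩
    have hodd : ¬ 2 ∣ a ^ 3 + c ^ 3 := by
      rw [← even_iff_two_dvd, Nat.even_add, Nat.even_pow' (by norm_num), Nat.even_pow' (by norm_num),
        ← Nat.even_add]
      exact hpar
    have h1 : pv 2 ((a ^ 3 + c ^ 3 : ℕ) : ℚ) = 1 := pv_nat_one hodd
    have h3 : pv 2 ((4 : ℕ) : ℚ) < 1 := pv_nat_lt (by norm_num)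
    have hbig : 1 < pv 2 ((((a : ℚ) ^ 3 + c ^ 3) / 2) ^ 2) := by
      have h4 : pv 2 ((4 : ℕ) : ℚ) * pv 2 ((((a : ℚ) ^ 3 + c ^ 3) / 2) ^ 2) = 1 := by
        rw [← pv_mul]
        have : ((4 : ℕ) : ℚ) * (((a : ℚ) ^ 3 + c ^ 3) / 2) ^ 2 =
          ((a ^ 3 + c ^ 3 : ℕ) : ℚ) ^ 2 := by push_cast; ring
        rw [this, pv_pow, h1, one_pow]
      by_contra hcon
      push Not at hcon
      have h5 := pv_nonneg 2 ((4 : ℕ) : ℚ)
      have h6 := mul_nonneg h5 (sub_nonneg.2 hcon)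
      rw [mul_sub, mul_one, h4] at h6
      linarith
    exact Pool.Agent.helper45.Tw.inf_of_pv (hAm 2) (hBm 2) (zero_mem _) h2 hbig hk hk2

theorem base3 (a c : ℕ) (ha : 0 < a) (hc : 0 < c) (hco : a.Coprime c) (hne : a ≠ c) :
    ∃ h : (Wc (b3 a c - a3 a c) (-(a3 a c * b3 a c)) 0).Nonsingular (-(a ^ 4 * (a + c) * c) : ℚ)
        (a ^ 4 * (a + c) * c ^ 2 * (a ^ 2 + a * c + c ^ 2)),
      (∀ k : ℕ, 0 < k → k • (Point.some _ _ h :
        (Wc (b3 a c - a3 a c) (-(a3 a c * b3 a c)) 0).Point) ≠ 0) ∧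
      ∀ (k : ℕ) (x y : ℚ) (h' : (Wc (b3 a c - a3 a c) (-(a3 a c * b3 a c)) 0).Nonsingular x y),
        (2 * k + 1) • (Point.some _ _ h :
          (Wc (b3 a c - a3 a c) (-(a3 a c * b3 a c)) 0).Point) = Point.some x y h' →
        x < 0 ∧ ∃ v : ℚ, v ≠ 0 ∧ -((a + c) * c * x) = v ^ 2 := by
  have ha' : 0 < (a : ℚ) := by exact_mod_cast ha
  have hc' : 0 < (c : ℚ) := by exact_mod_cast hc
  have hinf := base3_inf a c ha hc hco hne ha' hc'
  refine ⟨base3_ns a c ha' hc', hinf, ?_⟩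
  intro k x y h' hP
  have hx0 : (-((a : ℚ) ^ 4 * (a + c) * c)) ≠ 0 := neg_ne_zero.2 (by positivity)
  obtain ⟨r, hr0, hr⟩ := odd_sq (e := 0) (by ring)
    (by
      have h1 : a3 (a : ℚ) c * b3 a c ≠ 0 := by unfold a3 b3; positivity
      intro h2; apply h1; linear_combination -h2) (base3_ns (a : ℚ) (c : ℚ) ha' hc') hx0 hinf k hP
  rw [sub_zero, sub_zero] at hr
  have hpos : 0 < (a : ℚ) ^ 4 * (a + c) * c := by positivity
  have hr2 : 0 < r ^ 2 := by positivity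
  refine ⟨?_, r / a ^ 2, by positivity, ?_⟩
  · by_contra hcon
    push Not at hcon
    have h1 : x * -((a : ℚ) ^ 4 * (a + c) * c) ≤ 0 := by
      have := mul_nonneg hcon hpos.le
      linarith
    linarith
  · rw [div_pow, ← hr]; field_simp

end H4.Tw
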