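import Pool.Agent.helper4.Tw.Common
import Pool.Agent.helper45.Tw.D

/-! Module M: the base point for the rank 4 theorem (MP_157626_nt). -/

namespace H4.Tw

open WeierstrassCurve WeierstrassCurve.Affine H48.CN

/-- `α` for the rank 4 theorem. -/
def a4 (s : ℚ) : ℚ := s * (1 - s) ^ 4 * (4 * s ^ 2 + 3 * s + 1) * (s ^ 2 + 3 * s + 4)
/-- `β` for the rank 4 theorem. -/
def b4 (s : ℚ) : ℚ := s * (1 + s) ^ 2 * (1 - s) ^ 2 * (s ^ 2 - 3 * s + 4) * (4 * s ^ 2 - 3 * s + 1)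
/-- the first constant -/
def c41 (s : ℚ) : ℚ := s * (1 + s) * (s ^ 2 - 3 * s + 4)
/-- the second constant -/
def c42 (s : ℚ) : ℚ := (1 - s) * (4 * s ^ 2 + 3 * s + 1)
/-- the third constant -/
def c43 (s : ℚ) : ℚ := 8 * s * (1 + s ^ 2)

/-- A prime `p ≥ 5` dividing `m^2 + n^2`. -/
theorem exists_prime4 (m n : ℕ) (hm : 0 < m) (hmn : m < n) (hco : m.Coprime n) :
    ∃ p : ℕ, p.Prime ∧ 5 ≤ p ∧ p ∣ m ^ 2 + n ^ 2 := by
  have key : ∀ m : ℕ, m ≠ 1 → ¬ 2 ∣ m → ¬ 3 ∣ m → ∃ p, p.Prime ∧ 5 ≤ p ∧ p ∣ m := by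
    intro m h1 h2 h3
    refine ⟨m.minFac, Nat.minFac_prime h1, ?_, m.minFac_dvd⟩
    have hp := Nat.minFac_prime h1
    have hd := m.minFac_dvd
    have h4 : m.minFac ≠ 2 := fun h => h2 (h ▸ hd)
    have h5 : m.minFac ≠ 3 := fun h => h3 (h ▸ hd)
    have h6 := hp.two_le
    have h7 : m.minFac ≠ 4 := by
      intro h; rw [h] at hp; revert hp; norm_num
    omega
  have hbig : 5 ≤ m ^ 2 + n ^ 2 := by nlinarith
  have h3 : ¬ 3 ∣ m ^ 2 + n ^ 2 := by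
    intro h
    have h1 : (m % 3) ^ 2 % 3 + (n % 3) ^ 2 % 3 = 0 ∨ (m % 3) ^ 2 % 3 + (n % 3) ^ 2 % 3 = 3 := by
      have h2 : (m ^ 2 + n ^ 2) % 3 = 0 := Nat.mod_eq_zero_of_dvd h
      rw [Nat.add_mod, Nat.pow_mod m, Nat.pow_mod n] at h2
      have h3 := Nat.mod_lt ((m % 3) ^ 2) (show 3 > 0 by norm_num)
      have h4 := Nat.mod_lt ((n % 3) ^ 2) (show 3 > 0 by norm_num)
      omega
    have hm3 : m % 3 = 0 ∨ m % 3 = 1 ∨ m % 3 = 2 := by omega
    have hn3 : n % 3 = 0 ∨ n % 3 = 1 ∨ n % 3 = 2 := by omega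
    have h5 : m % 3 = 0 ∧ n % 3 = 0 := by
      rcases hm3 with h | h | h <;> rcases hn3 with h' | h' | h' <;> rw [h, h'] at h1 <;>
        simp at h1 ⊢ <;> omega
    have := Nat.dvd_gcd (Nat.dvd_of_mod_eq_zero h5.1) (Nat.dvd_of_mod_eq_zero h5.2)
    rw [hco.gcd_eq_one] at this
    omega
  have h4 : ¬ 4 ∣ m ^ 2 + n ^ 2 := by
    intro h
    have h2 : (m ^ 2 + n ^ 2) % 4 = 0 := Nat.mod_eq_zero_of_dvd h
    rw [Nat.add_mod, Nat.pow_mod m, Nat.pow_mod n] at h2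
    have hm3 : m % 4 = 0 ∨ m % 4 = 1 ∨ m % 4 = 2 ∨ m % 4 = 3 := by omega
    have hn3 : n % 4 = 0 ∨ n % 4 = 1 ∨ n % 4 = 2 ∨ n % 4 = 3 := by omega
    have h5 : m % 2 = 0 ∧ n % 2 = 0 := by
      rcases hm3 with h | h | h | h <;> rcases hn3 with h' | h' | h' | h' <;>
        rw [h, h'] at h2 <;> simp at h2 <;> omega
    have := Nat.dvd_gcd (Nat.dvd_of_mod_eq_zero h5.1) (Nat.dvd_of_mod_eq_zero h5.2)
    rw [hco.gcd_eq_one] at this
    omega
  by_cases h2 : 2 ∣ m ^ 2 + n ^ 2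
  · obtain ⟨r, hr⟩ := h2
    have hr2 : ¬ 2 ∣ r := by
      rintro ⟨j, hj⟩
      exact h4 ⟨j, by rw [hr, hj]; ring⟩
    have hr3 : ¬ 3 ∣ r := by
      rintro ⟨j, hj⟩
      exact h3 ⟨2 * j, by rw [hr, hj]; ring⟩
    obtain ⟨p, hp, hp5, hpr⟩ := key r (by rintro rfl; omega) hr2 hr3
    exact ⟨p, hp, hp5, hr ▸ (Dvd.dvd.mul_left hpr 2)⟩
  · exact key _ (by omega) h2 h3

theorem ne17 (s : ℚ) : 1 - 3 * s - 2 * s ^ 2 ≠ 0 := by
  intro h
  have h1 : IsSquare (17 : ℚ) := ⟨4 * s + 3, by linear_combination 8 * h⟩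
  revert h1
  rw [Rat.isSquare_iff]
  rintro ⟨⟨k, hk⟩, -⟩
  have h2 : (17 : ℚ).num = 17 := rfl
  rw [h2] at hk
  have h3 : k * k < 25 := by omega
  have h4 : -5 < k := by nlinarith
  have h5 : k < 5 := by nlinarith
  interval_cases k <;> omega

theorem ne2 (s : ℚ) : 1 - 2 * s ^ 2 ≠ 0 := by
  intro h
  have h1 : IsSquare (2 : ℚ) := ⟨2 * s, by linear_combination 2 * h⟩
  revert h1
  rw [Rat.isSquare_iff]
  rintro ⟨⟨k, hk⟩, -⟩
  have h2 : (2 : ℚ).num = 2 := rfl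
  rw [h2] at hk
  have h4 : -2 < k := by nlinarith
  have h5 : k < 2 := by nlinarith
  interval_cases k <;> omega

/-- a class computation -/
theorem class_of {X Y K u r : ℚ} (hK : K ≠ 0) (hu : u ≠ 0) (hr : r ≠ 0) (h : X * Y = r ^ 2)
    (hY : Y = K * u ^ 2) : ∃ v : ℚ, v ≠ 0 ∧ X = K * v ^ 2 := by
  subst hY
  refine ⟨r / (K * u), div_ne_zero hr (mul_ne_zero hK hu), ?_⟩
  rw [div_pow, ← h]
  field_simp

section
variable {s : ℚ}

theorem q1 (s : ℚ) : 0 < 4 * s ^ 2 + 3 * s + 1 := by nlinarith [sq_nonneg (8 * s + 3)]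
theorem q2 (s : ℚ) : 0 < s ^ 2 + 3 * s + 4 := by nlinarith [sq_nonneg (2 * s + 3)]
theorem q3 (s : ℚ) : 0 < s ^ 2 - 3 * s + 4 := by nlinarith [sq_nonneg (2 * s - 3)]
theorem q4 (s : ℚ) : 0 < 4 * s ^ 2 - 3 * s + 1 := by nlinarith [sq_nonneg (8 * s - 3)]

theorem a4_pos (h0 : 0 < s) (h1 : s < 1) : 0 < a4 s := by
  have e1 := q1 s
  have e2 := q2 s
  have e3 : 0 < 1 - s := by linarith
  unfold a4; positivity

theorem b4_pos (h0 : 0 < s) (h1 : s < 1) : 0 < b4 s := by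
  have e1 := q3 s
  have e2 := q4 s
  have e3 : 0 < 1 - s := by linarith
  unfold b4; positivity

theorem c41_pos (h0 : 0 < s) : 0 < c41 s := by
  have e1 := q3 s
  unfold c41; positivity

theorem c42_pos (h1 : s < 1) : 0 < c42 s := by
  have e1 := q1 s
  have e3 : 0 < 1 - s := by linarith
  unfold c42; positivity

theorem c43_pos (h0 : 0 < s) : 0 < c43 s := by
  unfold c43; positivity

/-- `α + β`. -/
theorem ab4 (s : ℚ) : a4 s + b4 s = 8 * s * (1 - s) ^ 2 * (1 + s ^ 2) * (1 - s ^ 2 + s ^ 4) := by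
  unfold a4 b4; ring

/-- the abscissa of the base point -/
def x4 (s : ℚ) : ℚ :=
  -(c41 s * c42 s * (1 - s) ^ 2 * ((1 - 3 * s - 2 * s ^ 2) / (1 + 3 * s - 2 * s ^ 2)) ^ 2)

/-- the ordinate -/
def y4 (s : ℚ) : ℚ := c41 s * c42 s * c43 s *
  ((1 - s) * (1 - 3 * s - 2 * s ^ 2) / (1 + 3 * s - 2 * s ^ 2)) *
  ((1 - s) * (1 + s ^ 2) / (1 + 3 * s - 2 * s ^ 2)) *
  ((1 - s) * (1 - 2 * s ^ 2) / (1 + 3 * s - 2 * s ^ 2))

theorem x4_neg (s : ℚ) : -x4 s = c41 s * c42 s *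
    ((1 - s) * (1 - 3 * s - 2 * s ^ 2) / (1 + 3 * s - 2 * s ^ 2)) ^ 2 := by
  unfold x4; ring

theorem x4_a (hD : 1 + 3 * s - 2 * s ^ 2 ≠ 0) : a4 s - x4 s = c42 s * c43 s *
    ((1 - s) * (1 + s ^ 2) / (1 + 3 * s - 2 * s ^ 2)) ^ 2 := by
  unfold x4 a4 c41 c42 c43
  generalize hDd : 1 + 3 * s - 2 * s ^ 2 = D at *
  field_simp
  rw [← hDd]
  ring

theorem x4_b (hD : 1 + 3 * s - 2 * s ^ 2 ≠ 0) : x4 s + b4 s = c41 s * c43 s *
    ((1 - s) * (1 - 2 * s ^ 2) / (1 + 3 * s - 2 * s ^ 2)) ^ 2 := by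
  unfold x4 b4 c41 c42 c43
  generalize hDd : 1 + 3 * s - 2 * s ^ 2 = D at *
  field_simp
  rw [← hDd]
  ring

theorem base4_ns (h0 : 0 < s) (h1 : s < 1) :
    (Wc (b4 s - a4 s) (-(a4 s * b4 s)) 0).Nonsingular (x4 s) (y4 s) := by
  have hD : 0 < 1 + 3 * s - 2 * s ^ 2 := by nlinarith
  have e0 := x4_neg s
  have e1 := x4_a hD.ne'
  have e2 := x4_b hD.ne'
  have hy : y4 s ^ 2 = x4 s * (x4 s - a4 s) * (x4 s + b4 s) := by
    have : x4 s * (x4 s - a4 s) * (x4 s + b4 s) = -x4 s * (a4 s - x4 s) * (x4 s + b4 s) := by ring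
    rw [this, e0, e1, e2, y4]; ring
  apply nonsing_of
  · rw [hy]; ring
  · left
    have p1 := (c41_pos h0).ne'
    have p2 := (c42_pos h1).ne'
    have p3 := (c43_pos h0).ne'
    have p4 := ne17 s
    have p5 := ne2 s
    have p6 : 1 - s ≠ 0 := by intro h; linarith
    have p7 : 1 + s ^ 2 ≠ 0 := by positivity
    have p8 := hD.ne'
    unfold y4
    positivity

/-- the two-torsion point -/
theorem tors_ns (h0 : 0 < s) (h1 : s < 1) :
    (Wc (b4 s - a4 s) (-(a4 s * b4 s)) 0).Nonsingular (a4 s) 0 := by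
  apply nonsing_of
  · ring
  · right
    have p1 := a4_pos h0 h1
    have p2 := b4_pos h0 h1
    have : 3 * a4 s ^ 2 + 2 * (b4 s - a4 s) * a4 s + -(a4 s * b4 s) = a4 s * (a4 s + b4 s) := by
      ring
    rw [this]; positivity

theorem x4_lt (h0 : 0 < s) (h1 : s < 1) : x4 s < 0 := by
  have p1 := c41_pos h0
  have p2 := c42_pos h1
  have p4 := ne17 s
  have hD : 0 < 1 + 3 * s - 2 * s ^ 2 := by nlinarith
  have p6 : 1 - s ≠ 0 := by intro h; linarith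
  have : 0 < -x4 s := by
    rw [x4_neg]
    have : (1 - s) * (1 - 3 * s - 2 * s ^ 2) / (1 + 3 * s - 2 * s ^ 2) ≠ 0 :=
      div_ne_zero (mul_ne_zero p6 p4) hD.ne'
    positivity
  linarith

theorem base4_add (h0 : 0 < s) (h1 : s < 1) :
    ∃ (x y : ℚ) (h : (Wc (b4 s - a4 s) (-(a4 s * b4 s)) 0).Nonsingular x y),
      (Point.some _ _ (base4_ns h0 h1) : (Wc (b4 s - a4 s) (-(a4 s * b4 s)) 0).Point) +
        Point.some _ _ (tors_ns h0 h1) = Point.some x y h ∧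
      (x - a4 s) * (1 + s ^ 2) ^ 2 = -(s * (1 - s) ^ 3 * (s ^ 2 + 3 * s + 4) *
        (1 - s ^ 2 + s ^ 4) * (1 + 3 * s - 2 * s ^ 2) ^ 2) := by
  have hD : 0 < 1 + 3 * s - 2 * s ^ 2 := by nlinarith
  have p1 := a4_pos h0 h1
  have hx := x4_lt h0 h1
  have hne : ¬ (x4 s = a4 s ∧ y4 s = -0) := by
    rintro ⟨h, -⟩; rw [h] at hx; linarith
  obtain ⟨l, x₃, y₃, h₃, hs, r1, -, r3, -⟩ := add_rel (base4_ns h0 h1) (tors_ns h0 h1) hne
  refine ⟨x₃, y₃, h₃, hs, ?_⟩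
  have hne' : x4 s - a4 s ≠ 0 := by intro h; linarith
  have e := eqn_iff.1 (base4_ns h0 h1).1
  have k1 : l ^ 2 * (x4 s - a4 s) = x4 s * (x4 s + b4 s) := by
    apply mul_right_cancel₀ hne'
    rw [sub_zero] at r1
    have : l ^ 2 * (x4 s - a4 s) * (x4 s - a4 s) = y4 s ^ 2 := by rw [← r1]; ring
    rw [this, e]; ring
  have k2 : (x₃ - a4 s) * (x4 s - a4 s) = a4 s * (a4 s + b4 s) := by
    rw [r3]; linear_combination k1
  have e1 := x4_a hD.ne'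
  have p2 := (c42_pos h1).ne'
  have p3 := (c43_pos h0).ne'
  have p6 : 1 - s ≠ 0 := by intro h; linarith
  have p8 := hD.ne'
  have k3 : (x₃ - a4 s) * (c42 s * c43 s * (1 - s) ^ 2 * (1 + s ^ 2) ^ 2) =
      -(a4 s * (a4 s + b4 s)) * (1 + 3 * s - 2 * s ^ 2) ^ 2 := by
    have : x4 s - a4 s = -(c42 s * c43 s *
      ((1 - s) * (1 + s ^ 2) / (1 + 3 * s - 2 * s ^ 2)) ^ 2) := by rw [← e1]; ring
    rw [← k2, this]
    clear this k1 k2 e1 e
    generalize 1 + 3 * s - 2 * s ^ 2 = D at *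
    field_simp
  have k4 : a4 s * (a4 s + b4 s) = c42 s * c43 s * (1 - s) ^ 2 *
      (s * (1 - s) ^ 3 * (s ^ 2 + 3 * s + 4) * (1 - s ^ 2 + s ^ 4)) := by
    rw [ab4]; unfold a4 c42 c43; ring
  have hnz : c42 s * c43 s * (1 - s) ^ 2 ≠ 0 := mul_ne_zero (mul_ne_zero p2 p3) (pow_ne_zero 2 p6)
  apply mul_left_cancel₀ hnz
  rw [k4] at k3
  linear_combination k3

theorem base4_inf (h0 : 0 < s) (h1 : s < 1) (k : ℕ) (hk : 0 < k) :
    k • (Point.some _ _ (base4_ns h0 h1) : (Wc (b4 s - a4 s) (-(a4 s * b4 s)) 0).Point) ≠ 0 := by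
  intro hk0
  obtain ⟨x, y, h, hadd, hx⟩ := base4_add h0 h1
  -- the prime
  have hnum : 0 < s.num := Rat.num_pos.2 h0
  have hsd : (s.num.natAbs : ℚ) / s.den = s := by
    have h3 : (s.num.natAbs : ℚ) = (s.num : ℚ) := by rw [Nat.cast_natAbs, abs_of_pos hnum]
    rw [h3]; exact Rat.num_div_den s
  have hden : (0 : ℚ) < s.den := by exact_mod_cast s.den_pos
  have hlt : s.num.natAbs < s.den := by
    have h2 : (s.num.natAbs : ℚ) < s.den := by
      rw [← hsd, div_lt_one hden] at h1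
      exact h1
    exact_mod_cast h2
  obtain ⟨p, hp, hp5, hpd⟩ := exists_prime4 s.num.natAbs s.den (Int.natAbs_pos.2 hnum.ne') hlt
    s.reduced
  have : Fact p.Prime := ⟨hp⟩
  set m := s.num.natAbs with hm
  set n := s.den with hn
  have hco : m.Coprime n := s.reduced
  have hpm : ¬ p ∣ m := by
    intro h
    have h2 : p ∣ n ^ 2 := (Nat.dvd_add_right (h.trans (dvd_pow_self m two_ne_zero))).1 hpd
    have h3 := Nat.dvd_gcd h (hp.dvd_of_dvd_pow h2)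
    rw [hco.gcd_eq_one] at h3
    exact hp.one_lt.ne' (Nat.dvd_one.1 h3)
  have hpn : ¬ p ∣ n := by
    intro h
    have h2 : p ∣ m ^ 2 := (Nat.dvd_add_left (h.trans (dvd_pow_self n two_ne_zero))).1 hpd
    exact hpm (hp.dvd_of_dvd_pow h2)
  have vm : pv p (m : ℚ) = 1 := pv_nat_one hpm
  have vn : pv p (n : ℚ) = 1 := pv_nat_one hpn
  have vs : pv p s = 1 := by
    have h2 : pv p (s * n) = 1 := by
      have : s * n = m := by rw [← hsd]; field_simp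
      rw [this, vm]
    rwa [pv_mul, vn, mul_one] at h2
  have ms : s ∈ OO p := (mem_OO p).2 vs.le
  have v2 : pv p (2 : ℚ) = 1 := by
    have := pv_nat_one (p := p) (n := 2)
      (fun h => absurd (Nat.le_of_dvd (by norm_num) h) (by omega))
    exact_mod_cast this
  have v3 : pv p (3 : ℚ) = 1 := by
    have := pv_nat_one (p := p) (n := 3)
      (fun h => absurd (Nat.le_of_dvd (by norm_num) h) (by omega))
    exact_mod_cast this
  have vt : pv p (1 + s ^ 2) < 1 := by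
    have h2 : pv p ((1 + s ^ 2) * (n : ℚ) ^ 2) < 1 := by
      have : (1 + s ^ 2) * (n : ℚ) ^ 2 = ((m ^ 2 + n ^ 2 : ℕ) : ℚ) := by
        push_cast
        have : s * n = m := by rw [← hsd]; field_simp
        rw [← this]; ring
      rw [this]; exact pv_nat_lt hpd
    rwa [pv_mul, pv_pow, vn, one_pow, mul_one] at h2
  have mt : (1 + s ^ 2) ∈ OO p := (mem_OO p).2 vt.le
  have m1 : (1 - s) ∈ OO p := sub_mem (one_mem _) ms
  have m2 : (1 + s) ∈ OO p := add_mem (one_mem _) ms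
  have v12 : pv p (1 - s) * pv p (1 + s) = 1 := by
    rw [← pv_mul]
    have : (1 - s) * (1 + s) = 2 + (-(1 + s ^ 2)) := by ring
    rw [this, pv_add_eq, v2]
    rw [v2, pv_neg]; exact vt
  have v1 : pv p (1 - s) = 1 := by
    have h2 := (mem_OO p).1 m1
    have h3 := (mem_OO p).1 m2
    have h4 := pv_nonneg p (1 - s)
    have h5 := pv_nonneg p (1 + s)
    refine le_antisymm h2 ?_
    calc (1 : ℝ) = pv p (1 - s) * pv p (1 + s) := v12.symm
      _ ≤ pv p (1 - s) * 1 := mul_le_mul_of_nonneg_left h3 h4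
      _ = _ := mul_one _
  have v1' : pv p (1 + s) = 1 := by rwa [v1, one_mul] at v12
  have v5 : pv p (s ^ 2 + 3 * s + 4) = 1 := by
    have : s ^ 2 + 3 * s + 4 = 3 * (1 + s) + (1 + s ^ 2) := by ring
    rw [this, pv_add_eq, pv_mul, v3, v1', one_mul]
    rw [pv_mul, v3, v1', one_mul]; exact vt
  have v6 : pv p (1 - s ^ 2 + s ^ 4) = 1 := by
    have : 1 - s ^ 2 + s ^ 4 = 3 + (1 + s ^ 2) * ((1 + s ^ 2) - 3) := by ring
    rw [this, pv_add_eq, v3]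
    rw [v3]; exact pv_mul_lt p vt (sub_mem mt (ofNat_mem_OO p 3))
  have v7 : pv p (1 + 3 * s - 2 * s ^ 2) = 1 := by
    have : 1 + 3 * s - 2 * s ^ 2 = 3 * (1 + s) + (1 + s ^ 2) * (-2) := by ring
    rw [this, pv_add_eq, pv_mul, v3, v1', one_mul]
    rw [pv_mul p 3 (1 + s), v3, v1', one_mul]
    exact pv_mul_lt p vt (neg_mem (ofNat_mem_OO p 2))
  have vx : pv p (x - a4 s) * pv p (1 + s ^ 2) ^ 2 = 1 := by
    rw [← pv_pow, ← pv_mul, hx, pv_neg, pv_mul, pv_mul, pv_mul, pv_mul, pv_pow, pv_pow, vs, v1, v5,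
      v6, v7]
    norm_num
  have ma : a4 s ∈ OO p := by
    unfold a4
    exact mul_mem (mul_mem (mul_mem ms (pow_mem m1 4)) (add_mem (add_mem
      (mul_mem (ofNat_mem_OO p 4) (pow_mem ms 2)) (mul_mem (ofNat_mem_OO p 3) ms)) (one_mem _)))
      ((mem_OO p).2 v5.le)
  have mb : b4 s ∈ OO p := by
    unfold b4
    exact mul_mem (mul_mem (mul_mem (mul_mem ms (pow_mem m2 2)) (pow_mem m1 2)) (add_mem (sub_mem
      (pow_mem ms 2) (mul_mem (ofNat_mem_OO p 3) ms)) (ofNat_mem_OO p 4)))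
      (add_mem (sub_mem (mul_mem (ofNat_mem_OO p 4) (pow_mem ms 2))
        (mul_mem (ofNat_mem_OO p 3) ms)) (one_mem _))
  have vxa : 1 < pv p (x - a4 s) := by
    by_contra hcon
    push Not at hcon
    have h2 := pv_nonneg p (x - a4 s)
    have h3 := pv_nonneg p (1 + s ^ 2)
    have h4 : pv p (1 + s ^ 2) ^ 2 < 1 := pow_lt_one₀ h3 vt two_ne_zero
    have h5 : pv p (x - a4 s) * pv p (1 + s ^ 2) ^ 2 ≤ 1 * pv p (1 + s ^ 2) ^ 2 :=
      mul_le_mul_of_nonneg_right hcon (sq_nonneg _)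
    linarith
  have vxx : 1 < pv p x := by
    have h2 : x = (x - a4 s) + a4 s := by ring
    rw [h2, pv_add_eq]
    · exact vxa
    · exact lt_of_le_of_lt ((mem_OO p).1 ma) vxa
  refine Pool.Agent.helper45.Tw.inf_of_pv (sub_mem mb ma) (neg_mem (mul_mem ma mb)) (zero_mem _) h
    vxx (n := 2 * k) (by omega) ?_
  rw [← hadd, nsmul_add]
  have t2 : (2 * k) • (Point.some _ _ (base4_ns h0 h1) :
      (Wc (b4 s - a4 s) (-(a4 s * b4 s)) 0).Point) = 0 := by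
    rw [mul_nsmul', hk0]; exact nsmul_zero 2
  have t3 : (2 * k) • (Point.some _ _ (tors_ns h0 h1) :
      (Wc (b4 s - a4 s) (-(a4 s * b4 s)) 0).Point) = 0 := by
    have : (2 : ℕ) • (Point.some _ _ (tors_ns h0 h1) :
        (Wc (b4 s - a4 s) (-(a4 s * b4 s)) 0).Point) = 0 := by
      rw [two_nsmul]
      exact Point.add_of_Y_eq rfl (by rw [negY_eq, neg_zero])
    rw [mul_nsmul, this]; exact nsmul_zero k
  rw [t2, t3]; exact add_zero 0

theorem base4 (s : ℚ) (h0 : 0 < s) (h1 : s < 1) :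
    ∃ (y : ℚ) (h : (Wc (b4 s - a4 s) (-(a4 s * b4 s)) 0).Nonsingular
        (-(c41 s * c42 s * (1 - s) ^ 2 * ((1 - 3 * s - 2 * s ^ 2) / (1 + 3 * s - 2 * s ^ 2)) ^ 2)) y),
      (∀ k : ℕ, 0 < k → k • (Point.some _ _ h : (Wc (b4 s - a4 s) (-(a4 s * b4 s)) 0).Point) ≠ 0) ∧
      ∀ (k : ℕ) (x y : ℚ) (h' : (Wc (b4 s - a4 s) (-(a4 s * b4 s)) 0).Nonsingular x y),
        (2 * k + 1) • (Point.some _ _ h : (Wc (b4 s - a4 s) (-(a4 s * b4 s)) 0).Point) =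
          Point.some x y h' →
        x < 0 ∧ ∃ u v w : ℚ, u ≠ 0 ∧ v ≠ 0 ∧ w ≠ 0 ∧ -x = c41 s * c42 s * u ^ 2 ∧
          a4 s - x = c42 s * c43 s * v ^ 2 ∧ x + b4 s = c41 s * c43 s * w ^ 2 := by
  refine ⟨y4 s, base4_ns h0 h1, base4_inf h0 h1, ?_⟩
  intro k x y h' hP
  have hD : 0 < 1 + 3 * s - 2 * s ^ 2 := by nlinarith
  have hpa := a4_pos h0 h1
  have hpb := b4_pos h0 h1
  have p1 := c41_pos h0
  have p2 := c42_pos h1
  have p3 := c43_pos h0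
  have p4 := ne17 s
  have p5 := ne2 s
  have p6 : 1 - s ≠ 0 := by intro h; linarith
  have p7 : 1 + s ^ 2 ≠ 0 := by positivity
  have p8 := hD.ne'
  have hx := x4_lt h0 h1
  have hinf := base4_inf h0 h1
  have hxb : x4 s + b4 s ≠ 0 := by
    rw [x4_b p8]
    exact mul_ne_zero (mul_ne_zero p1.ne' p3.ne') (pow_ne_zero 2 (div_ne_zero (mul_ne_zero p6 p5) p8))
  obtain ⟨r, hr0, hr⟩ := odd_sq (e := 0) (by ring)
    (by
      have h1 : a4 s * b4 s ≠ 0 := by positivity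
      intro h2; apply h1; linear_combination -h2) (base4_ns h0 h1) hx.ne hinf k hP
  obtain ⟨r', hr0', hr'⟩ := odd_sq (e := a4 s) (by ring)
    (by
      have h1 : a4 s * (a4 s + b4 s) ≠ 0 := by positivity
      intro h2; apply h1; linear_combination h2) (base4_ns h0 h1) (by intro h; linarith) hinf k hP
  obtain ⟨r'', hr0'', hr''⟩ := odd_sq (e := -b4 s) (by ring)
    (by
      have h1 : b4 s * (a4 s + b4 s) ≠ 0 := by positivity
      intro h2; apply h1; linear_combination h2) (base4_ns h0 h1)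
      (by intro h; apply hxb; rw [h]; ring) hinf k hP
  rw [sub_zero, sub_zero] at hr
  obtain ⟨u, hu0, hu⟩ := class_of (X := -x) (Y := -x4 s) (mul_ne_zero p1.ne' p2.ne')
    (div_ne_zero (mul_ne_zero p6 p4) p8) hr0 (by rw [← hr]; ring) (x4_neg s)
  obtain ⟨v, hv0, hv⟩ := class_of (X := a4 s - x) (Y := a4 s - x4 s) (mul_ne_zero p2.ne' p3.ne')
    (div_ne_zero (mul_ne_zero p6 p7) p8) hr0' (by rw [← hr']; ring) (x4_a p8)
  obtain ⟨w, hw0, hw⟩ := class_of (X := x + b4 s) (Y := x4 s + b4 s) (mul_ne_zero p1.ne' p3.ne')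
    (div_ne_zero (mul_ne_zero p6 p5) p8) hr0'' (by rw [← hr'']; ring) (x4_b p8)
  refine ⟨?_, u, v, w, hu0, hv0, hw0, hu, hv, hw⟩
  have : 0 < -x := by rw [hu]; positivity
  linarith

end

end H4.Tw
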